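import Mathlib

set_option autoImplicit false

namespace Pool.Agent.K7.H37.Cup

open Filter

/-- the numbers that are admissible at step `n` -/
def Adm (a : ℕ → ℕ) (n : ℕ) : Set ℕ :=
  {m | 0 < m ∧ (∀ j, 1 ≤ j → j < n → a j ≠ m) ∧
    (∀ p, p.Prime → p ∣ a (n - 1) → ¬ p ∣ a (n - 2) → p ∣ m) ∧
    (∀ p, p.Prime → p ∣ a (n - 1) → p ∣ a (n - 2) → ¬ p ∣ m)}

/-- `a` is the cup-of-coffee sequence (its terms are `a 1, a 2, ...`) -/
def IsCup (a : ℕ → ℕ) : Prop := a 1 = 1 ∧ a 2 = 2 ∧ ∀ n, 3 ≤ n → IsLeast (Adm a n) (a n)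

/-- required primes -/
def R (a : ℕ → ℕ) (n : ℕ) : Finset ℕ := (a (n - 1)).primeFactors \ (a (n - 2)).primeFactors

/-- forbidden primes -/
def F (a : ℕ → ℕ) (n : ℕ) : Finset ℕ := (a (n - 1)).primeFactors ∩ (a (n - 2)).primeFactors

variable {a : ℕ → ℕ}

theorem pos (h : IsCup a) {n : ℕ} (hn : 1 ≤ n) : 0 < a n := by
  obtain ⟨h1, h2, h3⟩ := h
  rcases Nat.lt_or_ge n 3 with h4 | h4
  · interval_cases n <;> omega
  · exact (h3 n h4).1.1

theorem inj (h : IsCup a) {i j : ℕ} (hi : 1 ≤ i) (hij : i < j) : a i ≠ a j := by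
  obtain ⟨h1, h2, h3⟩ := h
  rcases Nat.lt_or_ge j 3 with h4 | h4
  · have : i = 1 := by omega
    have : j = 2 := by omega
    subst_vars
    rw [h1, h2]; norm_num
  · exact (h3 j h4).1.2.1 i hi hij

theorem mem_adm (h : IsCup a) {n m : ℕ} (hn : 3 ≤ n) : m ∈ Adm a n ↔
    0 < m ∧ (∀ j, 1 ≤ j → j < n → a j ≠ m) ∧ R a n ⊆ m.primeFactors ∧
      Disjoint (F a n) m.primeFactors := by
  have p1 : a (n - 1) ≠ 0 := (pos h (by omega)).ne'
  have p2 : a (n - 2) ≠ 0 := (pos h (by omega)).ne'
  unfold Adm R F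
  simp only [Set.mem_ofPred_eq]
  constructor
  · rintro ⟨h1, h2, h3, h4⟩
    refine ⟨h1, h2, ?_, ?_⟩
    · intro p hp
      simp only [Finset.mem_sdiff, Nat.mem_primeFactors, not_and, ne_eq, p2, not_false_eq_true,
        and_true] at hp
      exact Nat.mem_primeFactors.2 ⟨hp.1.1, h3 p hp.1.1 hp.1.2.1 (hp.2 hp.1.1), h1.ne'⟩
    · rw [Finset.disjoint_left]
      intro p hp hpm
      simp only [Finset.mem_inter, Nat.mem_primeFactors] at hp hpm
      exact h4 p hp.1.1 hp.1.2.1 hp.2.2.1 hpm.2.1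
  · rintro ⟨h1, h2, h3, h4⟩
    refine ⟨h1, h2, ?_, ?_⟩
    · intro p hp hp1 hp2
      have : p ∈ m.primeFactors := h3 (by
        simp only [Finset.mem_sdiff, Nat.mem_primeFactors]
        exact ⟨⟨hp, hp1, p1⟩, fun hh => hp2 hh.2.1⟩)
      exact (Nat.mem_primeFactors.1 this).2.1
    · intro p hp hp1 hp2 hpm
      rw [Finset.disjoint_left] at h4
      exact h4 (Finset.mem_inter.2 ⟨Nat.mem_primeFactors.2 ⟨hp, hp1, p1⟩,
        Nat.mem_primeFactors.2 ⟨hp, hp2, p2⟩⟩) (Nat.mem_primeFactors.2 ⟨hp, hpm, h1.ne'⟩)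

theorem adm_self (h : IsCup a) {n : ℕ} (hn : 3 ≤ n) :
    R a n ⊆ (a n).primeFactors ∧ Disjoint (F a n) (a n).primeFactors := by
  have := (mem_adm h hn).1 (h.2.2 n hn).1
  exact this.2.2

theorem le_of (h : IsCup a) {n m : ℕ} (hn : 3 ≤ n) (hm : 0 < m)
    (hu : ∀ j, 1 ≤ j → j < n → a j ≠ m) (h1 : R a n ⊆ m.primeFactors)
    (h2 : Disjoint (F a n) m.primeFactors) : a n ≤ m :=
  (h.2.2 n hn).2 ((mem_adm h hn).2 ⟨hm, hu, h1, h2⟩)

theorem F_succ (h : IsCup a) {n : ℕ} (hn : 3 ≤ n) : F a (n + 1) = R a n := by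
  obtain ⟨h1, h2⟩ := adm_self h hn
  unfold F
  have e1 : n + 1 - 1 = n := by omega
  have e2 : n + 1 - 2 = n - 1 := by omega
  rw [e1, e2]
  ext p
  constructor
  · intro hp
    rw [Finset.mem_inter] at hp
    unfold R
    refine Finset.mem_sdiff.2 ⟨hp.2, fun hp2 => ?_⟩
    rw [Finset.disjoint_left] at h2
    exact h2 (Finset.mem_inter.2 ⟨hp.2, hp2⟩) hp.1
  · intro hp
    exact Finset.mem_inter.2 ⟨h1 hp, (Finset.mem_sdiff.1 hp).1⟩

theorem pf_eq (h : IsCup a) {n : ℕ} (hn : 3 ≤ n) : (a n).primeFactors = R a n ∪ R a (n + 1) := by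
  have h3 := F_succ h hn
  have e1 : n + 1 - 1 = n := by omega
  have e2 : n + 1 - 2 = n - 1 := by omega
  unfold F at h3
  rw [e1, e2] at h3
  have : R a (n + 1) = (a n).primeFactors \ (a (n - 1)).primeFactors := by
    unfold R; rw [e1, e2]
  rw [this, ← h3, Finset.union_comm]
  exact (Finset.sdiff_union_inter _ _).symm

theorem R_disj (h : IsCup a) {n : ℕ} (hn : 3 ≤ n) : Disjoint (R a n) (R a (n + 1)) := by
  rw [Finset.disjoint_left]
  intro p hp hq
  unfold R at hp hq
  have e2 : n + 1 - 2 = n - 1 := by omega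
  rw [e2] at hq
  exact (Finset.mem_sdiff.1 hq).2 (Finset.mem_sdiff.1 hp).1

theorem R_FR (a : ℕ → ℕ) (n : ℕ) : Disjoint (F a n) (R a n) := by
  rw [Finset.disjoint_left]
  intro p hp hq
  exact (Finset.mem_sdiff.1 hq).2 (Finset.mem_inter.1 hp).2

theorem R_prime (a : ℕ → ℕ) (n : ℕ) : ∀ p ∈ R a n, p.Prime := fun p hp =>
  Nat.prime_of_mem_primeFactors (Finset.mem_sdiff.1 hp).1

theorem R_succ_empty (h : IsCup a) {n : ℕ} (hn : 3 ≤ n)
    (he : (a n).primeFactors ⊆ R a n) : R a (n + 1) = ∅ := by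
  rw [pf_eq h hn] at he
  have h1 := R_disj h hn
  rw [Finset.eq_empty_iff_forall_notMem]
  intro p hp
  rw [Finset.disjoint_left] at h1
  exact h1 (he (Finset.mem_union_right _ hp)) hp

/-- product of the required primes -/
def P (a : ℕ → ℕ) (n : ℕ) : ℕ := ∏ p ∈ R a n, p

theorem P_pf (a : ℕ → ℕ) (n : ℕ) : (P a n).primeFactors = R a n :=
  Nat.primeFactors_prod (R_prime a n)

theorem P_pos (a : ℕ → ℕ) (n : ℕ) : 0 < P a n :=
  Finset.prod_pos fun p hp => (R_prime a n p hp).pos

theorem P_dvd {a : ℕ → ℕ} {n m : ℕ} (h1 : R a n ⊆ m.primeFactors) : P a n ∣ m :=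
  Finset.prod_primes_dvd m (fun p hp => (R_prime a n p hp).prime)
    fun p hp => Nat.dvd_of_mem_primeFactors (h1 hp)

/-- a number that is admissible infinitely often (if unused) is used -/
theorem used (h : IsCup a) {m : ℕ} (hm : 0 < m)
    (hf : ∃ᶠ n in atTop, R a n ⊆ m.primeFactors ∧ Disjoint (F a n) m.primeFactors) :
    ∃ n, 1 ≤ n ∧ a n = m := by
  by_contra hno
  push Not at hno
  have hf2 : ∃ᶠ n in atTop, (R a n ⊆ m.primeFactors ∧ Disjoint (F a n) m.primeFactors) ∧ 3 ≤ n :=
    hf.and_eventually (eventually_ge_atTop 3)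
  have hinf := Nat.frequently_atTop_iff_infinite.1 hf2
  obtain ⟨x, hx, y, hy, hxy, hf⟩ := hinf.exists_ne_map_eq_of_mapsTo (f := a) (t := Set.Iic m)
    (fun n hn => le_of h hn.2 hm (fun j hj _ => hno j hj) hn.1.1 hn.1.2) (Set.finite_Iic m)
  rcases lt_or_gt_of_ne hxy with h1 | h1
  · exact inj h (by have := hx.2; omega) h1 hf
  · exact inj h (by have := hy.2; omega) h1 hf.symm

theorem pigeon {f : ℕ → Finset ℕ} {S : Finset (Finset ℕ)} (hf : ∃ᶠ n in atTop, f n ∈ S) :
    ∃ T ∈ S, ∃ᶠ n in atTop, f n = T := by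
  by_contra hno
  push Not at hno
  have : ∀ᶠ n in atTop, ∀ T ∈ S, f n ≠ T := by
    rw [Filter.eventually_all_finset]
    intro T hT
    exact hno T hT
  obtain ⟨n, hn, hn2⟩ := (hf.and_eventually this).exists
  exact hn2 _ hn rfl

/-- infinitely many steps have no requirement -/
theorem E_inf (h : IsCup a) : ∃ᶠ n in atTop, R a n = ∅ := by
  by_contra hno
  rw [not_frequently] at hno
  obtain ⟨N0, hN0⟩ := eventually_atTop.1 hno
  set N := max N0 3 with hN
  have hN3 : 3 ≤ N := le_max_right _ _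
  have hne : ∀ n, N ≤ n → R a n ≠ ∅ := fun n hn => hN0 n ((le_max_left _ _).trans hn)
  have c1 : ∀ n, N ≤ n → ∃ j, 1 ≤ j ∧ j < n ∧ a j = P a n := by
    intro n hn
    by_contra hno2
    push Not at hno2
    have h1 : a n ≤ P a n := le_of h (by omega) (P_pos a n) hno2 (by rw [P_pf])
      (by rw [P_pf]; exact R_FR a n)
    have h2 : P a n ∣ a n := P_dvd (adm_self h (by omega)).1
    have h3 : a n = P a n := le_antisymm h1 (Nat.le_of_dvd (pos h (by omega)) h2)
    exact hne (n + 1) (by omega) (R_succ_empty h (by omega) (by rw [h3, P_pf]))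
  set S : Finset ℕ := (Finset.range (N + 1)).biUnion (fun j => (a j).primeFactors) with hS
  have hSj : ∀ j, j ≤ N → (a j).primeFactors ⊆ S := by
    intro j hj
    exact Finset.subset_biUnion_of_mem (fun j => (a j).primeFactors)
      (Finset.mem_range.2 (by omega))
  have c2 : ∀ n, N ≤ n → R a n ⊆ S := by
    intro n
    induction n using Nat.strong_induction_on with
    | _ n ih =>
      intro hn
      rcases Nat.eq_or_lt_of_le hn with h0 | h0
      · rw [← h0]
        exact (Finset.sdiff_subset).trans (hSj (N - 1) (by omega))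
      · obtain ⟨j, hj1, hj2, hj3⟩ := c1 n hn
        have e : R a n = (a j).primeFactors := by rw [hj3, P_pf]
        rcases Nat.lt_or_ge N j with h4 | h4
        · have e2 := pf_eq h (n := j) (by omega)
          rcases Nat.lt_or_ge (j + 1) n with h5 | h5
          · rw [e, e2]
            exact Finset.union_subset (ih j hj2 (by omega)) (ih (j + 1) h5 (by omega))
          · exfalso
            have h6 : j + 1 = n := by omega
            rw [h6, ← e] at e2
            have h7 : R a j ⊆ R a n := by rw [e2]; exact Finset.subset_union_left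
            have h8 := R_disj h (n := j) (by omega)
            rw [h6] at h8
            exact hne j (by omega) (Finset.disjoint_self_iff_empty _ |>.1
              (h8.mono_right h7))
        · rw [e]; exact hSj j h4
  have key : ∀ k : ℕ, ∀ T : Finset ℕ, T.card = k → T.Nonempty → ¬ ∃ᶠ n in atTop, R a n = T := by
    intro k
    induction k using Nat.strong_induction_on with
    | _ k ih =>
      intro T hk hT hrec
      have hTp : ∀ p ∈ T, p.Prime := by
        obtain ⟨n, hn⟩ := hrec.exists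
        rw [← hn]; exact R_prime a n
      set Q := ∏ p ∈ T, p with hQ
      have hQpf : Q.primeFactors = T := Nat.primeFactors_prod hTp
      have hQ1 : 1 < Q := by
        obtain ⟨p, hp⟩ := hT
        have h1 : p ∣ Q := Finset.dvd_prod_of_mem (fun p => p) hp
        have h2 : 0 < Q := Finset.prod_pos fun p hp => (hTp p hp).pos
        exact lt_of_lt_of_le (hTp p hp).one_lt (Nat.le_of_dvd h2 h1)
      have hus : ∀ k : ℕ, ∃ n, 1 ≤ n ∧ a n = Q ^ (k + 1) := by
        intro k
        apply used h (by positivity)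
        refine hrec.mono fun n hn => ?_
        rw [Nat.primeFactors_pow _ (by omega), hQpf]
        refine ⟨hn.subset, ?_⟩
        have := R_FR a n
        rwa [hn] at this
      choose g hg1 hg2 using hus
      have hginj : Function.Injective g := by
        intro x y hxy
        have : Q ^ (x + 1) = Q ^ (y + 1) := by rw [← hg2, ← hg2, hxy]
        have := Nat.pow_right_injective hQ1 this
        omega
      have hfr : ∃ᶠ n in atTop, R a n ∈ (T.powerset.erase ∅).erase T := by
        rw [Nat.frequently_atTop_iff_infinite]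
        have hinf : (Set.range g ∩ {n | N ≤ n}).Infinite := by
          intro hfin
          have : (Set.range g).Finite := by
            refine (hfin.union (Set.finite_lt_nat N)).subset ?_
            intro x hx
            rcases Nat.lt_or_ge x N with h1 | h1
            · exact Or.inr h1
            · exact Or.inl ⟨hx, h1⟩
          exact Set.infinite_range_of_injective hginj this
        refine hinf.mono ?_
        rintro n ⟨⟨k, rfl⟩, hn⟩
        have hn' : N ≤ g k := hn
        have e2 := pf_eq h (n := g k) (by omega)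
        rw [hg2 k, Nat.primeFactors_pow _ (by omega), hQpf] at e2
        have hsub : R a (g k) ⊆ T := by rw [e2]; exact Finset.subset_union_left
        refine Finset.mem_erase.2 ⟨?_, Finset.mem_erase.2 ⟨hne _ hn', Finset.mem_powerset.2 hsub⟩⟩
        intro heq
        have h8 := R_disj h (n := g k) (by omega)
        have h9 : R a (g k + 1) ⊆ R a (g k) := by
          rw [heq, e2]; exact Finset.subset_union_right
        exact hne (g k + 1) (by omega) (Finset.disjoint_self_iff_empty _ |>.1 (h8.mono_left h9))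
      obtain ⟨T', hT', hrec'⟩ := pigeon hfr
      rw [Finset.mem_erase, Finset.mem_erase, Finset.mem_powerset] at hT'
      have hss : T' ⊂ T := lt_of_le_of_ne hT'.2.2 hT'.1
      exact ih T'.card (hk ▸ Finset.card_lt_card hss) T' rfl
        (Finset.nonempty_iff_ne_empty.2 hT'.2.1) hrec'
  have hfr : ∃ᶠ n in atTop, R a n ∈ S.powerset.erase ∅ := by
    apply Eventually.frequently
    filter_upwards [eventually_ge_atTop N] with n hn
    exact Finset.mem_erase.2 ⟨hne n hn, Finset.mem_powerset.2 (c2 n hn)⟩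
  obtain ⟨T, hT, hrec⟩ := pigeon hfr
  exact key T.card T rfl (Finset.nonempty_iff_ne_empty.2 (Finset.mem_erase.1 hT).1) hrec

/-- the first term divisible by a prime `q` -/
theorem first (h : IsCup a) {i q : ℕ} (hq : q.Prime) (hi : 3 ≤ i) (hqi : q ∣ a i)
    (hnew : ∀ j, 1 ≤ j → j < i → ¬ q ∣ a j) :
    a i = P a i * q ∧ R a (i + 1) = {q} ∧ F a (i + 1) = R a i := by
  have hqR : q ∉ R a i := fun hh => hnew (i - 1) (by omega) (by omega)
    (Nat.dvd_of_mem_primeFactors (Finset.mem_sdiff.1 hh).1)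
  have hqF : q ∉ F a i := fun hh => hnew (i - 1) (by omega) (by omega)
    (Nat.dvd_of_mem_primeFactors (Finset.mem_inter.1 hh).1)
  have hcop : ¬ q ∣ P a i := by
    intro hh
    exact hqR (by rw [← P_pf]; exact Nat.mem_primeFactors.2 ⟨hq, hh, (P_pos a i).ne'⟩)
  have hpf : (P a i * q).primeFactors = insert q (R a i) := by
    rw [Nat.primeFactors_mul (P_pos a i).ne' hq.ne_zero, P_pf, hq.primeFactors, Finset.union_comm]
    rfl
  have h1 : a i ≤ P a i * q := by
    apply le_of h hi (Nat.mul_pos (P_pos a i) hq.pos)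
    · intro j hj hji heq
      exact hnew j hj hji (by rw [heq]; exact dvd_mul_left _ _)
    · rw [hpf]; exact Finset.subset_insert _ _
    · rw [hpf, Finset.disjoint_insert_right]
      exact ⟨hqF, R_FR a i⟩
  have h2 : P a i * q ∣ a i :=
    Nat.Coprime.mul_dvd_of_dvd_of_dvd ((Nat.Prime.coprime_iff_not_dvd hq).2 hcop).symm
      (P_dvd (adm_self h hi).1) hqi
  have h3 : a i = P a i * q := le_antisymm h1 (Nat.le_of_dvd (pos h (by omega)) h2)
  refine ⟨h3, ?_, F_succ h hi⟩
  have h4 := pf_eq h hi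
  have h5 := R_disj h hi
  rw [h3, hpf] at h4
  ext p
  constructor
  · intro hp
    have : p ∈ insert q (R a i) := by rw [h4]; exact Finset.mem_union_right _ hp
    rcases Finset.mem_insert.1 this with h6 | h6
    · exact Finset.mem_singleton.2 h6
    · exact absurd hp (Finset.disjoint_left.1 h5 h6)
  · intro hp
    rw [Finset.mem_singleton] at hp
    have : p ∈ R a i ∪ R a (i + 1) := by rw [← h4, hp]; exact Finset.mem_insert_self _ _
    rcases Finset.mem_union.1 this with h6 | h6
    · rw [hp] at h6; exact absurd h6 hqR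
    · exact h6

/-- a new prime that is not a term by itself -/
theorem newN (h : IsCup a) {i q : ℕ} (hq : q.Prime) (hi : 3 ≤ i) (hqi : q ∣ a i)
    (hnew : ∀ j, 1 ≤ j → j < i → ¬ q ∣ a j) (hR : R a i ≠ ∅) :
    a (i + 1) = q ∧ R a (i + 2) = ∅ ∧ F a (i + 2) = {q} := by
  obtain ⟨h1, h2, h3⟩ := first h hq hi hqi hnew
  have hP : P a i ≠ 1 := by
    intro hh
    apply hR
    rw [← P_pf, hh, Nat.primeFactors_one]
  have hqR : q ∉ R a i := fun hh => hnew (i - 1) (by omega) (by omega)
    (Nat.dvd_of_mem_primeFactors (Finset.mem_sdiff.1 hh).1)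
  have h4 : a (i + 1) ≤ q := by
    apply le_of h (by omega) hq.pos
    · intro j hj hji heq
      rcases Nat.lt_or_ge j i with h5 | h5
      · exact hnew j hj h5 (by rw [heq])
      · have : j = i := by omega
        rw [this, h1] at heq
        have h6 : P a i * q = 1 * q := by omega
        exact hP (Nat.eq_of_mul_eq_mul_right hq.pos h6)
    · rw [h2, hq.primeFactors]
    · rw [h3, hq.primeFactors, Finset.disjoint_singleton_right]; exact hqR
  have h5 : q ∣ a (i + 1) := by
    have := (adm_self h (n := i + 1) (by omega)).1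
    rw [h2] at this
    exact Nat.dvd_of_mem_primeFactors (this (Finset.mem_singleton_self q))
  have h6 : a (i + 1) = q := le_antisymm h4 (Nat.le_of_dvd (pos h (by omega)) h5)
  have h7 : R a (i + 1 + 1) = ∅ := R_succ_empty h (by omega) (by rw [h6, h2, hq.primeFactors])
  refine ⟨h6, h7, ?_⟩
  have h8 := F_succ h (n := i + 1) (by omega)
  rw [h8, h2]

/-- a new prime that is a term by itself -/
theorem newE (h : IsCup a) {i q : ℕ} (hq : q.Prime) (hq2 : q ≠ 2) (hi : 3 ≤ i) (hqi : q ∣ a i)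
    (hnew : ∀ j, 1 ≤ j → j < i → ¬ q ∣ a j) (hR : R a i = ∅) :
    a i = q ∧ a (i + 1) = 2 * q ∧ R a (i + 2) = {2} ∧ F a (i + 2) = {q} := by
  obtain ⟨h1, h2, h3⟩ := first h hq hi hqi hnew
  have hP : P a i = 1 := by unfold P; rw [hR]; rfl
  rw [hP, one_mul] at h1
  have hpf : (2 * q).primeFactors = {2, q} := by
    rw [Nat.primeFactors_mul (by norm_num) hq.ne_zero, hq.primeFactors,
      Nat.prime_two.primeFactors]
    rfl
  have h4 : a (i + 1) ≤ 2 * q := by
    apply le_of h (by omega) (by have := hq.pos; omega)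
    · intro j hj hji heq
      rcases Nat.lt_or_ge j i with h5 | h5
      · exact hnew j hj h5 (by rw [heq]; exact dvd_mul_left _ _)
      · have : j = i := by omega
        rw [this, h1] at heq
        have := hq.pos
        omega
    · rw [h2, hpf]; intro x hx; rw [Finset.mem_singleton] at hx; rw [hx]; simp
    · rw [h3, hR]; exact Finset.disjoint_empty_left _
  have h5 : q ∣ a (i + 1) := by
    have := (adm_self h (n := i + 1) (by omega)).1
    rw [h2] at this
    exact Nat.dvd_of_mem_primeFactors (this (Finset.mem_singleton_self q))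
  have h6 : a (i + 1) ≠ q := fun hh => inj h (by omega) (Nat.lt_succ_self i) (by rw [h1]; exact hh.symm)
  have h7 : a (i + 1) = 2 * q := by
    obtain ⟨c, hc⟩ := h5
    have hc0 : c ≠ 0 := by
      rintro rfl
      have := pos h (n := i + 1) (by omega)
      rw [hc] at this; omega
    have hc1 : c ≠ 1 := by
      rintro rfl
      exact h6 (by rw [hc, mul_one])
    have : q * 2 ≤ q * c := Nat.mul_le_mul_left q (by omega)
    have e : 2 * q = q * 2 := mul_comm _ _
    omega
  refine ⟨h1, h7, ?_, ?_⟩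
  · have h8 := pf_eq h (n := i + 1) (by omega)
    have h9 := R_disj h (n := i + 1) (by omega)
    rw [h7, hpf, h2] at h8
    rw [h2] at h9
    ext p
    constructor
    · intro hp
      have : p ∈ ({2, q} : Finset ℕ) := by rw [h8]; exact Finset.mem_union_right _ hp
      rw [Finset.mem_insert, Finset.mem_singleton] at this
      rcases this with h10 | h10
      · exact Finset.mem_singleton.2 h10
      · rw [h10] at hp
        exact absurd hp (Finset.disjoint_left.1 h9 (Finset.mem_singleton_self q))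
    · intro hp
      rw [Finset.mem_singleton] at hp
      have : p ∈ ({q} : Finset ℕ) ∪ R a (i + 1 + 1) := by
        rw [← h8, hp]; simp
      rcases Finset.mem_union.1 this with h10 | h10
      · rw [Finset.mem_singleton] at h10; exact absurd (h10.symm.trans hp) hq2
      · exact h10
  · have h8 := F_succ h (n := i + 1) (by omega)
    rw [h8, h2]

/-- new primes: after step `N` every prime that did not divide an earlier term comes -/
theorem exists_new (h : IsCup a) {q N : ℕ} (hq : q.Prime) (hN : ∀ j, 1 ≤ j → j < N → ¬ q ∣ a j) :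
    ∃ i, N ≤ i ∧ 1 ≤ i ∧ q ∣ a i ∧ ∀ j, 1 ≤ j → j < i → ¬ q ∣ a j := by
  classical
  have hex : ∃ i, 1 ≤ i ∧ q ∣ a i := by
    by_contra hno
    push Not at hno
    obtain ⟨n, hn, hn2⟩ := used h hq.pos (by
      refine ((E_inf h).and_eventually (eventually_ge_atTop 3)).mono fun n hn => ?_
      rw [hn.1, hq.primeFactors]
      refine ⟨Finset.empty_subset _, ?_⟩
      rw [Finset.disjoint_singleton_right]
      intro hh
      exact hno (n - 1) (by have := hn.2; omega)
        (Nat.dvd_of_mem_primeFactors (Finset.mem_inter.1 hh).1))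
    exact hno n hn (by rw [hn2])
  refine ⟨Nat.find hex, ?_, (Nat.find_spec hex).1, (Nat.find_spec hex).2, ?_⟩
  · by_contra hlt
    exact hN _ (Nat.find_spec hex).1 (by omega) (Nat.find_spec hex).2
  · intro j hj hji hqj
    exact Nat.find_min hex hji ⟨hj, hqj⟩

/-- for every `N` and `m` there is a new prime `q > m` at a step `i ≥ N` -/
theorem exists_new_large (h : IsCup a) (m N : ℕ) : ∃ q i, q.Prime ∧ m < q ∧ 2 < q ∧ N ≤ i ∧ 3 ≤ i ∧
    q ∣ a i ∧ ∀ j, 1 ≤ j → j < i → ¬ q ∣ a j := by
  obtain ⟨q, hq1, hq⟩ := Nat.exists_infinite_primes (m + 3 + ∑ j ∈ Finset.range (N + 3), a j)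
  obtain ⟨i, hi1, hi2, hi3, hi4⟩ := exists_new h (q := q) (N := N + 3) hq (by
    intro j hj hjN hd
    have h1 : a j ≤ ∑ j ∈ Finset.range (N + 3), a j :=
      Finset.single_le_sum (f := fun j => a j) (fun _ _ => Nat.zero_le _) (Finset.mem_range.2 hjN)
    have h2 := Nat.le_of_dvd (pos h hj) hd
    omega)
  exact ⟨q, i, hq, by omega, by omega, by omega, by omega, hi3, hi4⟩

theorem evens (h : IsCup a) {m : ℕ} (hm : 0 < m) (he : 2 ∣ m) : ∃ n, 1 ≤ n ∧ a n = m := by
  apply used h hm
  rw [frequently_atTop]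
  intro N
  obtain ⟨q, i, hq, hqm, hq2, hiN, hi3, hqi, hnew⟩ := exists_new_large h m N
  have hqn : q ∉ m.primeFactors := fun hh => by
    have := Nat.le_of_dvd hm (Nat.dvd_of_mem_primeFactors hh)
    omega
  refine ⟨i + 2, by omega, ?_⟩
  by_cases hR : R a i = ∅
  · obtain ⟨-, -, h3, h4⟩ := newE h hq (by omega) hi3 hqi hnew hR
    rw [h3, h4, Finset.disjoint_singleton_left]
    refine ⟨?_, hqn⟩
    intro x hx
    rw [Finset.mem_singleton] at hx
    rw [hx]
    exact Nat.mem_primeFactors.2 ⟨Nat.prime_two, he, hm.ne'⟩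
  · obtain ⟨-, h3, h4⟩ := newN h hq hi3 hqi hnew hR
    rw [h3, h4, Finset.disjoint_singleton_left]
    exact ⟨Finset.empty_subset _, hqn⟩

theorem primes (h : IsCup a) {q : ℕ} (hq : q.Prime) : ∃ n, 1 ≤ n ∧ a n = q := by
  rcases eq_or_ne q 2 with h2 | h2
  · exact ⟨2, by norm_num, by rw [h2, h.2.1]⟩
  · obtain ⟨i, hi1, hi2, hi3, hi4⟩ := exists_new h (q := q) (N := 3) hq (by
      intro j hj hj3 hd
      have h5 := h.1
      have h6 := h.2.1
      have := hq.two_le
      interval_cases j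
      · rw [h5] at hd; exact hq.one_lt.ne' (Nat.dvd_one.1 hd)
      · rw [h6] at hd; exact h2 ((Nat.prime_dvd_prime_iff_eq hq Nat.prime_two).1 hd))
    by_cases hR : R a i = ∅
    · exact ⟨i, by omega, (newE h hq h2 hi1 hi3 hi4 hR).1⟩
    · exact ⟨i + 1, by omega, (newN h hq hi1 hi3 hi4 hR).1⟩

/-- if some number is missing, all large primes are introduced as terms and followed by `2 q` -/
theorem missing (h : IsCup a) {m : ℕ} (hm : 0 < m) (hno : ∀ n, 1 ≤ n → a n ≠ m) :
    ∃ B, ∀ q, q.Prime → B < q → ∃ i, 3 ≤ i ∧ a i = q ∧ a (i + 1) = 2 * q ∧ R a i = ∅ ∧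
      ∀ j, 1 ≤ j → j < i → ¬ q ∣ a j := by
  have hnf : ¬ ∃ᶠ n in atTop, R a n ⊆ m.primeFactors ∧ Disjoint (F a n) m.primeFactors := by
    intro hf
    obtain ⟨n, hn, hn2⟩ := used h hm hf
    exact hno n hn hn2
  rw [not_frequently] at hnf
  obtain ⟨N, hN⟩ := eventually_atTop.1 hnf
  refine ⟨m + 3 + ∑ j ∈ Finset.range (N + 3), a j, ?_⟩
  intro q hq hqB
  obtain ⟨i, hi1, hi2, hi3, hi4⟩ := exists_new h (q := q) (N := N + 3) hq (by
    intro j hj hjN hd
    have h1 : a j ≤ ∑ j ∈ Finset.range (N + 3), a j :=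
      Finset.single_le_sum (f := fun j => a j) (fun _ _ => Nat.zero_le _) (Finset.mem_range.2 hjN)
    have h2 := Nat.le_of_dvd (pos h hj) hd
    omega)
  have hqn : q ∉ m.primeFactors := fun hh => by
    have := Nat.le_of_dvd hm (Nat.dvd_of_mem_primeFactors hh)
    omega
  by_cases hR : R a i = ∅
  · obtain ⟨h1, h2, -, -⟩ := newE h hq (by omega) (by omega) hi3 hi4 hR
    exact ⟨i, by omega, h1, h2, hR, hi4⟩
  · exfalso
    obtain ⟨-, h3, h4⟩ := newN h hq (by omega) hi3 hi4 hR
    apply hN (i + 2) (by omega)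
    rw [h3, h4, Finset.disjoint_singleton_left]
    exact ⟨Finset.empty_subset _, hqn⟩

/-! ## Existence of the sequence -/

/-- the next term after the (nonempty) history, newest term first -/
noncomputable def next (l : List ℕ) : ℕ :=
  sInf {m | 0 < m ∧ m ∉ l ∧ (∀ p, p.Prime → p ∣ l.headI → ¬ p ∣ l.tail.headI → p ∣ m) ∧
    (∀ p, p.Prime → p ∣ l.headI → p ∣ l.tail.headI → ¬ p ∣ m)}

/-- the history: `hist n = [a (n+2), ..., a 2, a 1]` -/
noncomputable def hist : ℕ → List ℕ
  | 0 => [2, 1]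
  | n + 1 => next (hist n) :: hist n

/-- the sequence -/
noncomputable def cup (n : ℕ) : ℕ := if n ≤ 1 then 1 else (hist (n - 2)).headI

theorem headI_hist (n : ℕ) : (hist n).headI = cup (n + 2) := by
  unfold cup
  rw [if_neg (by omega)]
  rfl

theorem tail_hist (n : ℕ) : (hist n).tail.headI = cup (n + 1) := by
  cases n with
  | zero => simp [hist, cup]
  | succ n =>
    have : (hist (n + 1)).tail = hist n := rfl
    rw [this, headI_hist]

theorem mem_hist (n x : ℕ) : x ∈ hist n ↔ ∃ j, 1 ≤ j ∧ j < n + 3 ∧ cup j = x := by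
  induction n with
  | zero =>
    constructor
    · intro hx
      simp only [hist, List.mem_cons, List.not_mem_nil, or_false] at hx
      rcases hx with rfl | rfl
      · exact ⟨2, by norm_num, by norm_num, by simp [cup, hist]⟩
      · exact ⟨1, by norm_num, by norm_num, by simp [cup]⟩
    · rintro ⟨j, h1, h2, rfl⟩
      interval_cases j <;> simp [cup, hist]
  | succ n ih =>
    have e : hist (n + 1) = next (hist n) :: hist n := rfl
    have e2 : cup (n + 3) = next (hist n) := by
      rw [show n + 3 = (n + 1) + 2 by ring, ← headI_hist, e]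
      rfl
    rw [e, List.mem_cons, ih]
    constructor
    · rintro (h | ⟨j, h1, h2, h3⟩)
      · exact ⟨n + 3, by omega, by omega, by rw [e2, h]⟩
      · exact ⟨j, h1, by omega, h3⟩
    · rintro ⟨j, h1, h2, h3⟩
      rcases Nat.lt_or_ge j (n + 3) with h4 | h4
      · exact Or.inr ⟨j, h1, h4, h3⟩
      · left
        have : j = n + 3 := by omega
        rw [← h3, this, e2]

theorem next_ne {l : List ℕ} (hx : 0 < l.headI) (hy : 0 < l.tail.headI) :
    {m | 0 < m ∧ m ∉ l ∧ (∀ p, p.Prime → p ∣ l.headI → ¬ p ∣ l.tail.headI → p ∣ m) ∧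
      (∀ p, p.Prime → p ∣ l.headI → p ∣ l.tail.headI → ¬ p ∣ m)}.Nonempty := by
  set x := l.headI
  set y := l.tail.headI
  obtain ⟨q, hq1, hq⟩ := Nat.exists_infinite_primes (l.sum + x + 1)
  set A := x.primeFactors \ y.primeFactors
  have hA : ∀ p ∈ A, p.Prime := fun p hp => Nat.prime_of_mem_primeFactors (Finset.mem_sdiff.1 hp).1
  have hpos : 0 < ∏ p ∈ A, p := Finset.prod_pos fun p hp => (hA p hp).pos
  refine ⟨q * ∏ p ∈ A, p, Nat.mul_pos hq.pos hpos, ?_, ?_, ?_⟩
  · intro hm
    have h1 := List.single_le_sum (l := l) (fun _ _ => Nat.zero_le _) _ hm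
    have h2 : q * 1 ≤ q * ∏ p ∈ A, p := Nat.mul_le_mul_left q hpos
    omega
  · intro p hp hpx hpy
    refine Dvd.dvd.mul_left (Finset.dvd_prod_of_mem (fun p => p) (Finset.mem_sdiff.2
      ⟨Nat.mem_primeFactors.2 ⟨hp, hpx, hx.ne'⟩, fun hh => hpy ?_⟩)) q
    exact Nat.dvd_of_mem_primeFactors hh
  · intro p hp hpx hpy hpm
    rcases (Nat.Prime.dvd_mul hp).1 hpm with h1 | h1
    · have h2 := (Nat.prime_dvd_prime_iff_eq hp hq).1 h1
      have h3 := Nat.le_of_dvd hx hpx
      omega
    · have h2 : p ∈ (∏ p ∈ A, p).primeFactors := Nat.mem_primeFactors.2 ⟨hp, h1, hpos.ne'⟩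
      rw [Nat.primeFactors_prod hA] at h2
      exact (Finset.mem_sdiff.1 h2).2 (Nat.mem_primeFactors.2 ⟨hp, hpy, hy.ne'⟩)

theorem cup_pos (n : ℕ) : 0 < cup n := by
  induction n using Nat.strong_induction_on with
  | _ n ih =>
    rcases Nat.lt_or_ge n 3 with h | h
    · interval_cases n <;> simp [cup, hist]
    · obtain ⟨k, rfl⟩ : ∃ k, n = k + 3 := ⟨n - 3, by omega⟩
      have e2 : cup (k + 3) = next (hist k) := by
        rw [show k + 3 = (k + 1) + 2 by ring, ← headI_hist]
        rfl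
      rw [e2]
      exact (Nat.sInf_mem (next_ne (l := hist k) (by rw [headI_hist]; exact ih _ (by omega))
        (by rw [tail_hist]; exact ih _ (by omega)))).1

theorem isCup_cup : IsCup cup := by
  refine ⟨by simp [cup], by simp [cup, hist], ?_⟩
  intro n hn
  obtain ⟨k, rfl⟩ : ∃ k, n = k + 3 := ⟨n - 3, by omega⟩
  have e2 : cup (k + 3) = next (hist k) := by
    rw [show k + 3 = (k + 1) + 2 by ring, ← headI_hist]
    rfl
  have hset : Adm cup (k + 3) = {m | 0 < m ∧ m ∉ hist k ∧
      (∀ p, p.Prime → p ∣ (hist k).headI → ¬ p ∣ (hist k).tail.headI → p ∣ m) ∧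
      (∀ p, p.Prime → p ∣ (hist k).headI → p ∣ (hist k).tail.headI → ¬ p ∣ m)} := by
    ext m
    have e3 : k + 3 - 1 = k + 2 := by omega
    have e4 : k + 3 - 2 = k + 1 := by omega
    unfold Adm
    rw [e3, e4]
    simp only [Set.mem_ofPred_eq, headI_hist, tail_hist, mem_hist]
    push Not
    rfl
  rw [hset, e2]
  have hne := next_ne (l := hist k) (by rw [headI_hist]; exact cup_pos _)
    (by rw [tail_hist]; exact cup_pos _)
  exact ⟨Nat.sInf_mem hne, fun m hm => Nat.sInf_le hm⟩

end Pool.Agent.K7.H37.Cup
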