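import Pool.Agent.K7.H37.CupOne

set_option autoImplicit false

namespace Pool.Agent.K7.H37.Cup

open Filter

variable {a : ℕ → ℕ}

theorem card_support (S : Finset ℕ) (x : ℕ) :
    ((Finset.Icc 1 x).filter (fun m => m.primeFactors = S)).card ≤ (Nat.log 2 x + 1) ^ S.card := by
  classical
  have h1 : (S.pi (fun _ => Finset.range (Nat.log 2 x + 1))).card =
      (Nat.log 2 x + 1) ^ S.card := by
    rw [Finset.card_pi]
    simp
  rw [← h1]
  apply Finset.card_le_card_of_injOn (fun m => fun p _ => m.factorization p)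
  · intro m hm
    simp only [Finset.coe_filter, Finset.mem_Icc, Set.mem_ofPred_eq] at hm
    simp only [Finset.mem_coe, Finset.mem_pi, Finset.mem_range]
    intro p hp
    have hpp : p ∈ m.primeFactors := by rw [hm.2]; exact hp
    have hpr := Nat.prime_of_mem_primeFactors hpp
    have h2 : p ^ m.factorization p ∣ m := Nat.ordProj_dvd m p
    have h3 : 2 ^ m.factorization p ≤ p ^ m.factorization p :=
      Nat.pow_le_pow_left hpr.two_le _
    have h4 := Nat.le_of_dvd (by omega) h2
    have h5 : 2 ^ m.factorization p ≤ x := by omega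
    have := Nat.le_log_of_pow_le (by norm_num) h5
    omega
  · intro m hm k hk hmk
    simp only [Finset.coe_filter, Finset.mem_Icc, Set.mem_ofPred_eq] at hm hk
    apply Nat.eq_of_factorization_eq (by omega) (by omega)
    intro p
    by_cases hp : p ∈ S
    · exact congrFun (congrFun hmk p) hp
    · have h2 : p ∉ m.primeFactors := by rw [hm.2]; exact hp
      have h3 : p ∉ k.primeFactors := by rw [hk.2]; exact hp
      rw [← Nat.support_factorization, Finsupp.notMem_support_iff] at h2 h3
      rw [h2, h3]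

theorem count_missing (S : Finset ℕ)
    (hS : ∀ m, 0 < m → (∀ n, 1 ≤ n → a n ≠ m) → m.primeFactors = S) (x : ℕ) :
    {m | 0 < m ∧ m ≤ x ∧ ∀ n, 1 ≤ n → a n ≠ m}.ncard ≤ (Nat.log 2 x + 1) ^ S.card := by
  refine le_trans ?_ (card_support S x)
  rw [← Set.ncard_coe_finset]
  apply Set.ncard_le_ncard _ (Finset.finite_toSet _)
  rintro m ⟨h1, h2, h3⟩
  simp only [Finset.coe_filter, Finset.mem_Icc, Set.mem_ofPred_eq]
  exact ⟨⟨h1, h2⟩, hS m h1 h3⟩

theorem finite_blocked (h : IsCup a) {S : Finset ℕ} (hS : Blocked a S) :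
    {m | m.primeFactors = S ∧ ∃ n, 1 ≤ n ∧ a n = m}.Finite := by
  unfold Blocked at hS
  rw [not_frequently] at hS
  obtain ⟨N, hN⟩ := eventually_atTop.1 hS
  refine ((Set.finite_lt_nat (N + 3)).image a).subset ?_
  rintro m ⟨h1, n, hn, rfl⟩
  refine ⟨n, ?_, rfl⟩
  by_contra hlt
  have hlt' : N + 3 ≤ n := by
    by_contra hh
    exact hlt (by show n < N + 3; omega)
  have h2 := adm_self h (n := n) (by omega)
  rw [h1] at h2
  exact hN n (by omega) h2

end Pool.Agent.K7.H37.Cup
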