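import Pool.Agent.K7.H37.Cup

set_option autoImplicit false

namespace Pool.Agent.K7.H37.Cup

open Filter

variable {a : ℕ → ℕ}

/-- numbers with the set `S` of prime divisors are admissible only finitely often -/
def Blocked (a : ℕ → ℕ) (S : Finset ℕ) : Prop :=
  ¬ ∃ᶠ n in atTop, R a n ⊆ S ∧ Disjoint (F a n) S

theorem blocked_of_missing (h : IsCup a) {m : ℕ} (hm : 0 < m) (hno : ∀ n, 1 ≤ n → a n ≠ m) :
    Blocked a m.primeFactors := by
  intro hf
  obtain ⟨n, hn, hn2⟩ := used h hm hf
  exact hno n hn hn2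

theorem not_blocked_empty (h : IsCup a) : ¬ Blocked a ∅ := by
  intro hb
  apply hb
  refine (E_inf h).mono fun n hn => ?_
  rw [hn]
  exact ⟨Finset.Subset.refl _, Finset.disjoint_empty_right _⟩

theorem not_blocked_two (h : IsCup a) {S : Finset ℕ} (h2 : 2 ∈ S) : ¬ Blocked a S := by
  intro hb
  apply hb
  rw [frequently_atTop]
  intro N
  obtain ⟨q, i, hq, hqm, hq2, hiN, hi3, hqi, hnew⟩ := exists_new_large h (S.sup id) N
  have hqn : q ∉ S := fun hh => by
    have : q ≤ S.sup id := Finset.le_sup (f := id) hh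
    omega
  refine ⟨i + 2, by omega, ?_⟩
  by_cases hR : R a i = ∅
  · obtain ⟨-, -, h3, h4⟩ := newE h hq (by omega) hi3 hqi hnew hR
    rw [h3, h4, Finset.disjoint_singleton_left]
    exact ⟨Finset.singleton_subset_iff.2 h2, hqn⟩
  · obtain ⟨-, h3, h4⟩ := newN h hq hi3 hqi hnew hR
    rw [h3, h4, Finset.disjoint_singleton_left]
    exact ⟨Finset.empty_subset _, hqn⟩

theorem pigeon2 {p : ℕ → Prop} {f : ℕ → Finset ℕ} {S : Finset (Finset ℕ)}
    (hf : ∃ᶠ n in atTop, p n ∧ f n ∈ S) : ∃ T ∈ S, ∃ᶠ n in atTop, p n ∧ f n = T := by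
  by_contra hno
  push Not at hno
  have : ∀ᶠ n in atTop, ∀ T ∈ S, ¬ (p n ∧ f n = T) := by
    rw [Filter.eventually_all_finset]
    intro T hT
    refine (hno T hT).mono fun n hn => ?_
    rintro ⟨h1, h2⟩
    exact hn h1 h2
  obtain ⟨n, hn, hn2⟩ := (hf.and_eventually this).exists
  exact hn2 _ hn.2 ⟨hn.1, rfl⟩

/-- an unblocked set is split infinitely often in the same way -/
theorem claim1 (h : IsCup a) {T : Finset ℕ} (hT : T.Nonempty) (hTp : ∀ p ∈ T, p.Prime)
    (hu : ¬ Blocked a T) : ∃ A B : Finset ℕ, A ∪ B = T ∧ Disjoint A B ∧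
      ∃ᶠ n in atTop, R a n = A ∧ R a (n + 1) = B := by
  unfold Blocked at hu
  rw [not_not] at hu
  set Q := ∏ p ∈ T, p with hQ
  have hQpf : Q.primeFactors = T := Nat.primeFactors_prod hTp
  have hQ1 : 1 < Q := by
    obtain ⟨p, hp⟩ := hT
    have h1 : p ∣ Q := Finset.dvd_prod_of_mem (fun p => p) hp
    have h2 : 0 < Q := Finset.prod_pos fun p hp => (hTp p hp).pos
    exact lt_of_lt_of_le (hTp p hp).one_lt (Nat.le_of_dvd h2 h1)
  have hus : ∀ k : ℕ, ∃ n, 1 ≤ n ∧ a n = Q ^ (k + 1) := by
    intro k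
    apply used h (by positivity)
    refine hu.mono fun n hn => ?_
    rw [Nat.primeFactors_pow _ (by omega), hQpf]
    exact hn
  choose g hg1 hg2 using hus
  have hginj : Function.Injective g := by
    intro x y hxy
    have : Q ^ (x + 1) = Q ^ (y + 1) := by rw [← hg2, ← hg2, hxy]
    have := Nat.pow_right_injective hQ1 this
    omega
  have hfr : ∃ᶠ n in atTop, (R a n ∪ R a (n + 1) = T ∧ Disjoint (R a n) (R a (n + 1))) ∧
      R a n ∈ T.powerset := by
    rw [Nat.frequently_atTop_iff_infinite]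
    have hinf : (Set.range g ∩ {n | 3 ≤ n}).Infinite := by
      intro hfin
      have : (Set.range g).Finite := by
        refine (hfin.union (Set.finite_lt_nat 3)).subset ?_
        intro x hx
        rcases Nat.lt_or_ge x 3 with h1 | h1
        · exact Or.inr h1
        · exact Or.inl ⟨hx, h1⟩
      exact Set.infinite_range_of_injective hginj this
    refine hinf.mono ?_
    rintro n ⟨⟨k, rfl⟩, hn⟩
    have hn' : 3 ≤ g k := hn
    have e2 := pf_eq h (n := g k) hn'
    rw [hg2 k, Nat.primeFactors_pow _ (by omega), hQpf] at e2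
    exact ⟨⟨e2.symm, R_disj h hn'⟩, Finset.mem_powerset.2 (by
      rw [e2]; exact Finset.subset_union_left)⟩
  obtain ⟨A, hA, hrec⟩ := pigeon2 hfr
  refine ⟨A, T \ A, Finset.union_sdiff_of_subset (Finset.mem_powerset.1 hA),
    Finset.disjoint_sdiff, ?_⟩
  refine hrec.mono ?_
  rintro n ⟨⟨h1, h2⟩, h3⟩
  refine ⟨h3, ?_⟩
  rw [h3] at h1 h2
  rw [← h1, Finset.union_sdiff_cancel_left h2]

/-- after `(A, B)` -/
theorem cons1 (h : IsCup a) {A B S : Finset ℕ}
    (hf : ∃ᶠ n in atTop, R a n = A ∧ R a (n + 1) = B) (h1 : B ⊆ S) (h2 : Disjoint A S) :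
    ¬ Blocked a S := by
  intro hb
  apply hb
  have hf' := hf.and_eventually (eventually_ge_atTop 3)
  rw [frequently_atTop] at hf' ⊢
  intro N
  obtain ⟨n, hn, ⟨hA, hB⟩, hn3⟩ := hf' N
  refine ⟨n + 1, by omega, ?_⟩
  rw [hB, F_succ h hn3, hA]
  exact ⟨h1, h2⟩

/-- at `(A, B)` -/
theorem cons2 (h : IsCup a) {A B S : Finset ℕ}
    (hf : ∃ᶠ n in atTop, R a n = A ∧ R a (n + 1) = B) (h1 : A ⊆ S) (h2 : S ⊆ A ∪ B) :
    ¬ Blocked a S := by
  intro hb
  apply hb
  have hf' := hf.and_eventually (eventually_ge_atTop 3)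
  refine hf'.mono ?_
  rintro n ⟨⟨hA, hB⟩, hn3⟩
  refine ⟨by rw [hA]; exact h1, ?_⟩
  have h3 := (adm_self h hn3).2
  rw [pf_eq h hn3, hA, hB] at h3
  exact h3.mono_right h2

theorem split_single {A B : Finset ℕ} {r : ℕ} (h1 : A ∪ B = {r}) (h2 : Disjoint A B) :
    (A = {r} ∧ B = ∅) ∨ (A = ∅ ∧ B = {r}) := by
  have hA : A ⊆ {r} := by rw [← h1]; exact Finset.subset_union_left
  rcases Finset.subset_singleton_iff.1 hA with rfl | rfl
  · right; rw [Finset.empty_union] at h1; exact ⟨rfl, h1⟩
  · left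
    refine ⟨rfl, ?_⟩
    have hB : B ⊆ {r} := by rw [← h1]; exact Finset.subset_union_right
    rcases Finset.subset_singleton_iff.1 hB with rfl | rfl
    · rfl
    · rw [Finset.disjoint_self_iff_empty] at h2; exact h2

/-- if `S` is blocked and `{r}`, `r ∉ S`, is not, then no set that contains `r` is blocked -/
theorem single (h : IsCup a) {S S' : Finset ℕ} (hS : Blocked a S) {r : ℕ} (hr : r.Prime)
    (hrS : r ∉ S) (hru : ¬ Blocked a {r}) (hrS' : r ∈ S') : ¬ Blocked a S' := by
  obtain ⟨A, B, h1, h2, h3⟩ := claim1 h (Finset.singleton_nonempty r)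
    (by intro p hp; rw [Finset.mem_singleton] at hp; rw [hp]; exact hr) hru
  rcases split_single h1 h2 with ⟨rfl, rfl⟩ | ⟨rfl, rfl⟩
  · exact absurd hS (cons1 h h3 (Finset.empty_subset _) (Finset.disjoint_singleton_left.2 hrS))
  · exact cons1 h h3 (Finset.singleton_subset_iff.2 hrS') (Finset.disjoint_empty_left _)

/-- at most one set of primes is blocked -/
theorem unique (h : IsCup a) : ∃ S : Finset ℕ, (∀ p ∈ S, p.Prime ∧ p ≠ 2) ∧
    ∀ S' : Finset ℕ, (∀ p ∈ S', p.Prime) → Blocked a S' → S' = S := by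
  classical
  by_cases hex : ∃ k, ∃ S : Finset ℕ, S.card = k ∧ (∀ p ∈ S, p.Prime) ∧ Blocked a S
  swap
  · refine ⟨∅, by simp, fun S' h1 h2 => absurd ⟨S'.card, S', rfl, h1, h2⟩ hex⟩
  obtain ⟨S, hSc, hSp, hSb⟩ := Nat.find_spec hex
  have hmin : ∀ S' : Finset ℕ, (∀ p ∈ S', p.Prime) → Blocked a S' → S.card ≤ S'.card := by
    intro S' h1 h2
    rw [hSc]
    exact Nat.find_min' hex ⟨S', rfl, h1, h2⟩
  have h2S : 2 ∉ S := fun hh => not_blocked_two h hh hSb
  refine ⟨S, fun p hp => ⟨hSp p hp, fun h2 => h2S (h2 ▸ hp)⟩, ?_⟩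
  have hne : S.Nonempty := by
    rw [Finset.nonempty_iff_ne_empty]
    rintro rfl
    exact not_blocked_empty h hSb
  -- every blocked set contains `S`
  have hsub : ∀ S' : Finset ℕ, (∀ p ∈ S', p.Prime) → Blocked a S' → S ⊆ S' := by
    intro S' hS'p hS'b
    by_cases hc : 2 ≤ S.card
    · intro p hp
      by_contra hpS'
      have hu : ¬ Blocked a {p} := by
        intro hb
        have := hmin {p} (by intro x hx; rw [Finset.mem_singleton] at hx; rw [hx]; exact hSp p hp) hb
        rw [Finset.card_singleton] at this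
        omega
      obtain ⟨A, B, h1, h2, h3⟩ := claim1 h (Finset.singleton_nonempty p)
        (by intro x hx; rw [Finset.mem_singleton] at hx; rw [hx]; exact hSp p hp) hu
      rcases split_single h1 h2 with ⟨rfl, rfl⟩ | ⟨rfl, rfl⟩
      · exact cons1 h h3 (Finset.empty_subset _) (Finset.disjoint_singleton_left.2 hpS') hS'b
      · exact cons1 h h3 (Finset.singleton_subset_iff.2 hp) (Finset.disjoint_empty_left _) hSb
    · have hc1 : S.card = 1 := by
        have := Finset.card_pos.2 hne
        omega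
      obtain ⟨p, rfl⟩ := Finset.card_eq_one.1 hc1
      have hp : p.Prime := hSp p (Finset.mem_singleton_self p)
      have hp2 : 2 ≠ p := fun hh => h2S (by rw [hh]; exact Finset.mem_singleton_self p)
      rw [Finset.singleton_subset_iff]
      by_contra hpS'
      have hu : ¬ Blocked a {2, p} := not_blocked_two h (by simp)
      obtain ⟨A, B, h1, h2, h3⟩ := claim1 h (T := {2, p}) ⟨2, by simp⟩
        (by
          intro x hx
          rw [Finset.mem_insert, Finset.mem_singleton] at hx
          rcases hx with rfl | rfl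
          · exact Nat.prime_two
          · exact hp) hu
      have hpAB : p ∈ A ∪ B := by rw [h1]; simp
      have h2AB : 2 ∈ A ∪ B := by rw [h1]; simp
      have h2A : 2 ∈ A := by
        by_contra h2A
        refine cons2 h h3 ?_ (Finset.singleton_subset_iff.2 hpAB) hSb
        intro x hx
        have : x ∈ ({2, p} : Finset ℕ) := by rw [← h1]; exact Finset.mem_union_left _ hx
        rw [Finset.mem_insert, Finset.mem_singleton] at this
        rcases this with rfl | rfl
        · exact absurd hx h2A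
        · exact Finset.mem_singleton_self _
      have hpA : p ∈ A := by
        by_contra hpA
        refine cons1 h h3 ?_ (Finset.disjoint_singleton_right.2 hpA) hSb
        intro x hx
        have : x ∈ ({2, p} : Finset ℕ) := by rw [← h1]; exact Finset.mem_union_right _ hx
        rw [Finset.mem_insert, Finset.mem_singleton] at this
        rcases this with rfl | rfl
        · exact absurd hx (Finset.disjoint_left.1 h2 h2A)
        · exact Finset.mem_singleton_self _
      have hA : A = {2, p} := by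
        apply Finset.Subset.antisymm
        · rw [← h1]; exact Finset.subset_union_left
        · intro x hx
          rw [Finset.mem_insert, Finset.mem_singleton] at hx
          rcases hx with rfl | rfl
          · exact h2A
          · exact hpA
      have hB : B ⊆ S' := by
        intro x hx
        have hx2 : x ∈ A := by rw [hA, ← h1]; exact Finset.mem_union_right _ hx
        exact absurd hx (Finset.disjoint_left.1 h2 hx2)
      refine cons1 h h3 hB ?_ hS'b
      rw [hA, Finset.disjoint_insert_left, Finset.disjoint_singleton_left]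
      exact ⟨fun hh => not_blocked_two h hh hS'b, hpS'⟩
  intro S' hS'p hS'b
  refine Finset.Subset.antisymm ?_ (hsub S' hS'p hS'b)
  intro r hr
  by_contra hrS
  have hru : ¬ Blocked a {r} := by
    intro hb
    have := hsub {r} (by intro x hx; rw [Finset.mem_singleton] at hx; rw [hx]; exact hS'p r hr) hb
    obtain ⟨p, hp⟩ := hne
    have h4 := this hp
    rw [Finset.mem_singleton] at h4
    exact hrS (h4 ▸ hp)
  exact single h hSb (hS'p r hr) hrS hru hr hS'b

end Pool.Agent.K7.H37.Cup
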