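import Pool.Agent.K7.H47.DM.Stm4

set_option autoImplicit false

open Polynomial

namespace Pool.Agent.K7.H37.D4

open Pool.Agent.K7.H47.DM4

theorem lead (h : StU) (h' : StBlk) : StK := by
  classical
  intro ι iF iD t j cl ht hc hex
  obtain ⟨σ₀, hσ₀, hmax⟩ : ∃ σ₀ : Equiv.Perm ι, Feas t j σ₀ ∧
      ∀ τ, Feas t j τ → Wt t cl τ ≤ Wt t cl σ₀ := by
    obtain ⟨σ, hσ⟩ := hex
    obtain ⟨σ₀, h1, h2⟩ := Finset.exists_max_image
      (Finset.univ.filter (fun σ : Equiv.Perm ι => Feas t j σ)) (fun σ => Wt t cl σ)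
      ⟨σ, by simp [hσ]⟩
    exact ⟨σ₀, (Finset.mem_filter.1 h1).2, fun τ hτ => h2 τ (by simp [hτ])⟩
  have hB := h' ι t j cl ht hc σ₀ hσ₀
  intro h0
  apply hB
  have h1 := congrArg (fun q => q.coeff (Wt t cl σ₀)) h0
  simp only [coeff_zero] at h1
  rw [Matrix.det_apply, Polynomial.finsetSum_coeff] at h1
  rw [Matrix.det_apply]
  refine Eq.trans ?_ h1
  apply Finset.sum_congr rfl
  intro σ _
  have hprod : ∏ c, (Matrix.of fun r c => (C (((t r).choose (j c) : ℕ) : ℚ) *
      X ^ (cl c * t r) : ℚ[X])) (σ c) c =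
      C (∏ c, (((t (σ c)).choose (j c) : ℕ) : ℚ)) * X ^ (Wt t cl σ) := by
    simp only [Matrix.of_apply, Finset.prod_mul_distrib, Finset.prod_pow_eq_pow_sum, map_prod, Wt]
  rw [hprod, Polynomial.coeff_smul, coeff_C_mul, coeff_X_pow]
  congr 1
  simp only [Matrix.of_apply]
  by_cases hf : Feas t j σ
  · have hiff : (Wt t cl σ₀ = Wt t cl σ) ↔ ∀ c, cl (σ₀.symm (σ c)) = cl c := by
      constructor
      · intro he c
        have h2 := h ι t j cl ht σ₀ σ hσ₀ hf hmax (fun τ hτ => (hmax τ hτ).trans he.le) (σ c)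
        rw [h2, Equiv.symm_apply_apply]
      · intro hcl
        unfold Wt
        rw [← Equiv.sum_comp (σ.trans σ₀.symm) (fun c => cl c * t (σ₀ c))]
        apply Finset.sum_congr rfl
        intro c _
        simp [hcl c]
    by_cases hW : Wt t cl σ₀ = Wt t cl σ
    · have hcl := hiff.1 hW
      rw [if_pos hW, mul_one]
      apply Finset.prod_congr rfl
      intro c _
      rw [if_pos (hcl c)]
    · rw [if_neg hW, mul_zero]
      have hex2 : ∃ c, ¬ cl (σ₀.symm (σ c)) = cl c := by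
        by_contra hcon
        push Not at hcon
        exact hW (hiff.2 hcon)
      obtain ⟨c, hc'⟩ := hex2
      exact Finset.prod_eq_zero (Finset.mem_univ c) (if_neg hc')
  · unfold Feas at hf
    push Not at hf
    obtain ⟨c, hcc⟩ := hf
    have hz : (((t (σ c)).choose (j c) : ℕ) : ℚ) = 0 := by
      rw [Nat.choose_eq_zero_of_lt hcc]
      simp
    have e1 : ∏ c, (((t (σ c)).choose (j c) : ℕ) : ℚ) = 0 :=
      Finset.prod_eq_zero (Finset.mem_univ c) hz
    rw [e1, zero_mul]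
    refine Finset.prod_eq_zero (Finset.mem_univ c) ?_
    rw [hz]
    simp

end Pool.Agent.K7.H37.D4
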