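import Pool.Agent.K7.H72.IP.Stm

set_option autoImplicit false

namespace Pool.Agent.K7.H37.IPEXS

open SimpleGraph Pool.Agent.K7.H72.IP

/-- the star with centre `0` -/
def star (m : ℕ) : SimpleGraph (Fin (m + 1)) where
  Adj a b := a ≠ b ∧ (a = 0 ∨ b = 0)
  symm := ⟨by
    rintro a b ⟨h1, h2⟩
    exact ⟨h1.symm, h2.symm⟩⟩
  loopless := ⟨by
    rintro a ⟨h1, _⟩
    exact h1 rfl⟩

theorem star_free {V W : Type} {H : SimpleGraph V} {K : SimpleGraph W}
    (hH : H.edgeSet.Nonempty) (hK : K.edgeSet.Nonempty) (m : ℕ) : (H ⊕g K).Free (star m) := by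
  rintro ⟨f⟩
  obtain ⟨e, he⟩ := hH
  obtain ⟨e', he'⟩ := hK
  induction e using Sym2.ind with
  | _ a b =>
  induction e' using Sym2.ind with
  | _ c d =>
  rw [mem_edgeSet] at he he'
  have h1 : (star m).Adj (f (Sum.inl a)) (f (Sum.inl b)) :=
    f.toHom.map_adj (by simpa using he)
  have h2 : (star m).Adj (f (Sum.inr c)) (f (Sum.inr d)) :=
    f.toHom.map_adj (by simpa using he')
  have hinj := f.injective
  rcases h1.2 with h3 | h3 <;> rcases h2.2 with h4 | h4
  · have := hinj (h3.trans h4.symm); cases this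
  · have := hinj (h3.trans h4.symm); cases this
  · have := hinj (h3.trans h4.symm); cases this
  · have := hinj (h3.trans h4.symm); cases this

open Classical in
theorem star_card (m : ℕ) : m ≤ (star m).edgeFinset.card := by
  have h1 : (Finset.univ : Finset (Fin m)).card ≤ (star m).edgeFinset.card := by
    apply Finset.card_le_card_of_injOn (fun i : Fin m => s((0 : Fin (m + 1)), i.succ))
    · intro i _
      simp only [Finset.mem_coe, mem_edgeFinset, mem_edgeSet]
      exact ⟨(Fin.succ_ne_zero i).symm, Or.inl rfl⟩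
    · intro i _ j _ hij
      simp only [Sym2.eq_iff] at hij
      rcases hij with ⟨_, h⟩ | ⟨h, _⟩
      · exact Fin.succ_injective _ h
      · exact absurd h.symm (Fin.succ_ne_zero j)
  simpa using h1

open Classical in
theorem t : StExS := by
  intro V W H K hH hK n
  refine ⟨IsContained.extremalNumber_le ⟨Embedding.sumInl.toCopy⟩,
    IsContained.extremalNumber_le ⟨Embedding.sumInr.toCopy⟩, fun hn => ?_⟩
  obtain ⟨m, rfl⟩ : ∃ m, n = m + 1 := ⟨n - 1, by omega⟩
  have h1 := card_edgeFinset_le_extremalNumber (star_free hH hK m)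
  rw [Fintype.card_fin] at h1
  have h2 := star_card m
  omega

end Pool.Agent.K7.H37.IPEXS
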