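import Pool.Agent.K7.H80.MD.Stm

set_option autoImplicit false

namespace Pool.Agent.K7.H37.MDMIX

open Finset Filter Pool.Agent.K7.H80.MD

open Classical in
/-- the weight of a graph -/
noncomputable def w (n : ℕ) (p : ℝ) (G : SimpleGraph (Fin n)) : ℝ :=
  p ^ G.edgeFinset.card * (1 - p) ^ (n.choose 2 - G.edgeFinset.card)

open Classical in
theorem Pr_eq (n : ℕ) (p : ℝ) (A : SimpleGraph (Fin n) → Prop) :
    Pr n p A = ∑ G ∈ (univ : Finset (SimpleGraph (Fin n))).filter (fun G => A G), w n p G := rfl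

theorem w_nonneg (n : ℕ) {p : ℝ} (h0 : 0 ≤ p) (h1 : p ≤ 1) (G : SimpleGraph (Fin n)) :
    0 ≤ w n p G :=
  mul_nonneg (pow_nonneg h0 _) (pow_nonneg (by linarith) _)

open Classical in
theorem pr_union {ι : Type} [Fintype ι] (n : ℕ) {p : ℝ} (h0 : 0 ≤ p) (h1 : p ≤ 1)
    (A : ι → SimpleGraph (Fin n) → Prop) :
    Pr n p (fun G => ∃ i, A i G) ≤ ∑ i, Pr n p (A i) := by
  simp only [Pr_eq, sum_filter]
  rw [sum_comm]
  apply sum_le_sum
  intro G _
  have hnn : ∀ i ∈ (univ : Finset ι), 0 ≤ (if A i G then w n p G else 0) := by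
    intro i _
    split_ifs
    · exact w_nonneg n h0 h1 G
    · exact le_rfl
  split_ifs with h
  · obtain ⟨i, hi⟩ := h
    calc w n p G = if A i G then w n p G else 0 := by rw [if_pos hi]
      _ ≤ _ := single_le_sum hnn (mem_univ i)
  · exact sum_nonneg hnn

open Classical in
theorem pr_mono (n : ℕ) {p : ℝ} (h0 : 0 ≤ p) (h1 : p ≤ 1)
    {A B : SimpleGraph (Fin n) → Prop} (h : ∀ G, A G → B G) : Pr n p A ≤ Pr n p B := by
  rw [Pr_eq, Pr_eq]
  apply sum_le_sum_of_subset_of_nonneg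
  · intro G hG
    rw [mem_filter] at hG ⊢
    exact ⟨hG.1, h G hG.2⟩
  · intro G _ _
    exact w_nonneg n h0 h1 G

open Classical in
/-- the number of pairs in `U × W` with the edge `e` -/
noncomputable def cc {n : ℕ} (U W : Finset (Fin n)) (e : Sym2 (Fin n)) : ℕ :=
  ∑ q ∈ U ×ˢ W, if s(q.1, q.2) = e then 1 else 0

theorem cc_le {n : ℕ} (U W : Finset (Fin n)) (e : Sym2 (Fin n)) : cc U W e ≤ 2 := by
  classical
  unfold cc
  rw [← card_filter]
  induction e using Sym2.ind with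
  | _ a b =>
    have hsub : (U ×ˢ W).filter (fun q => s(q.1, q.2) = s(a, b)) ⊆ {(a, b), (b, a)} := by
      intro q hq
      rw [mem_filter, Sym2.eq_iff] at hq
      rw [mem_insert, mem_singleton]
      rcases hq.2 with h | h
      · exact Or.inl (Prod.ext h.1 h.2)
      · exact Or.inr (Prod.ext h.1 h.2)
    exact (card_le_card hsub).trans card_le_two

open Classical in
theorem sum_edges {n : ℕ} (G : SimpleGraph (Fin n)) (U W : Finset (Fin n)) :
    ∑ u ∈ U, (nbr G W u : ℝ) = ∑ e ∈ G.edgeFinset, (cc U W e : ℝ) := by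
  have h1 : ∑ u ∈ U, nbr G W u = ∑ q ∈ U ×ˢ W, if G.Adj q.1 q.2 then 1 else 0 := by
    rw [sum_product]
    apply sum_congr rfl
    intro u _
    unfold nbr
    rw [card_filter]
  have h2 : ∑ e ∈ G.edgeFinset, cc U W e = ∑ q ∈ U ×ˢ W, if G.Adj q.1 q.2 then 1 else 0 := by
    unfold cc
    rw [sum_comm]
    apply sum_congr rfl
    intro q _
    rw [sum_ite_eq]
    simp only [SimpleGraph.mem_edgeFinset, SimpleGraph.mem_edgeSet]
  have h3 := h1.trans h2.symm
  exact_mod_cast h3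

open Classical in
theorem sum_all {n : ℕ} (U W : Finset (Fin n)) :
    ∃ r : ℝ, 0 ≤ r ∧ r ≤ n ∧ (U.card : ℝ) * W.card =
      ∑ e ∈ univ.filter (fun e : Sym2 (Fin n) => ¬ e.IsDiag), (cc U W e : ℝ) + r := by
  have h2 : ∑ e ∈ univ.filter (fun e : Sym2 (Fin n) => ¬ e.IsDiag), cc U W e =
      ((U ×ˢ W).filter (fun q => ¬ q.1 = q.2)).card := by
    unfold cc
    rw [sum_comm, card_filter]
    apply sum_congr rfl
    intro q _
    rw [sum_ite_eq]
    simp only [mem_filter, mem_univ, true_and, Sym2.mk_isDiag_iff]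
  have h3 : ((U ×ˢ W).filter (fun q => q.1 = q.2)).card +
      ((U ×ˢ W).filter (fun q => ¬ q.1 = q.2)).card = U.card * W.card := by
    rw [card_filter_add_card_filter_not, card_product]
  have h4 : ((U ×ˢ W).filter (fun q => q.1 = q.2)).card ≤ n := by
    have : ((U ×ˢ W).filter (fun q => q.1 = q.2)).card ≤ (univ : Finset (Fin n)).card := by
      refine card_le_card_of_injOn (fun q => q.1) (fun _ _ => mem_coe.2 (mem_univ _)) ?_
      intro x hx y hy hxy
      rw [mem_coe, mem_filter] at hx hy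
      exact Prod.ext hxy (by rw [← hx.2, ← hy.2]; exact hxy)
    simpa using this
  refine ⟨(((U ×ˢ W).filter (fun q => q.1 = q.2)).card : ℝ), by positivity, by exact_mod_cast h4,
    ?_⟩
  have h5 : U.card * W.card = ∑ e ∈ univ.filter (fun e : Sym2 (Fin n) => ¬ e.IsDiag), cc U W e +
      ((U ×ˢ W).filter (fun q => q.1 = q.2)).card := by omega
  exact_mod_cast h5

open Classical in
theorem tail (hprod : StProd) {n : ℕ} {p : ℝ} (hn : 1 ≤ n) (h0 : 0 < p) (h1 : p ≤ 1)
    (hnp : 1 ≤ n * p) (U W : Finset (Fin n)) (θ : ℝ) (hθ : |θ| * Real.sqrt (n * p) = 1 / 2) :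
    Pr n p (fun G => 3 * (n : ℝ) < θ * (∑ e ∈ G.edgeFinset, (cc U W e : ℝ) -
      p * ∑ e ∈ univ.filter (fun e : Sym2 (Fin n) => ¬ e.IsDiag), (cc U W e : ℝ))) ≤
      Real.exp (-(5 / 2) * n) := by
  set E := univ.filter (fun e : Sym2 (Fin n) => ¬ e.IsDiag) with hE
  set μ := p * ∑ e ∈ E, (cc U W e : ℝ) with hμ
  have hnpos : (0 : ℝ) < n := by exact_mod_cast hn
  have hs2 : Real.sqrt (n * p) ^ 2 = n * p := Real.sq_sqrt (by positivity)
  have hs1 : 1 ≤ Real.sqrt (n * p) := by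
    rw [Real.one_le_sqrt]
    exact hnp
  have hθ1 : |θ| ≤ 1 / 2 := by
    have h2 : |θ| * 1 ≤ |θ| * Real.sqrt (n * p) :=
      mul_le_mul_of_nonneg_left hs1 (abs_nonneg _)
    linarith
  have hθ2 : 4 * (θ ^ 2 * (n * p)) = 1 := by
    have h2 : (|θ| * Real.sqrt (n * p)) ^ 2 = (1 / 2) ^ 2 := by rw [hθ]
    rw [mul_pow, sq_abs, hs2] at h2
    linarith
  have hcardE : (E.card : ℝ) ≤ n * n / 2 := by
    have h2 : E.card = n.choose 2 := by
      have h3 := Sym2.card_subtype_not_diag (α := Fin n)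
      rw [Fintype.card_subtype, Fintype.card_fin] at h3
      rw [← h3, hE]
    rw [h2, Nat.choose_two_right]
    have h3 : ((n * (n - 1) / 2 : ℕ) : ℝ) ≤ ((n * (n - 1) : ℕ) : ℝ) / 2 := by
      have := @Nat.cast_div_le ℝ _ _ _ (n * (n - 1)) 2
      simpa using this
    have h4 : ((n * (n - 1) : ℕ) : ℝ) ≤ n * n := by
      exact_mod_cast Nat.mul_le_mul_left n (Nat.sub_le n 1)
    linarith
  have hP := hprod n p (fun e => Real.exp (θ * cc U W e)) (fun _ => 1)
  have hsum : ∑ G : SimpleGraph (Fin n), w n p G *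
      Real.exp (θ * ∑ e ∈ G.edgeFinset, (cc U W e : ℝ)) =
      ∏ e ∈ E, (p * Real.exp (θ * cc U W e) + (1 - p)) := by
    rw [show (∏ e ∈ E, (p * Real.exp (θ * cc U W e) + (1 - p))) =
      ∏ e ∈ E, (p * Real.exp (θ * cc U W e) + (1 - p) * 1) by simp only [mul_one], hE, ← hP]
    apply sum_congr rfl
    intro G _
    rw [prod_const_one, mul_one, ← Real.exp_sum, ← mul_sum]
    rfl
  have hfac : ∀ e ∈ E, p * Real.exp (θ * cc U W e) + (1 - p) ≤
      Real.exp (p * (Real.exp (θ * cc U W e) - 1)) := by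
    intro e _
    have := Real.add_one_le_exp (p * (Real.exp (θ * cc U W e) - 1))
    linarith
  have hprodle : ∏ e ∈ E, (p * Real.exp (θ * cc U W e) + (1 - p)) ≤
      Real.exp (∑ e ∈ E, p * (Real.exp (θ * cc U W e) - 1)) := by
    rw [Real.exp_sum]
    refine prod_le_prod ?_ hfac
    intro e _
    have := Real.exp_pos (θ * cc U W e)
    have h3 : 0 ≤ p * Real.exp (θ * cc U W e) := by positivity
    linarith
  have hexp : ∑ e ∈ E, p * (Real.exp (θ * cc U W e) - 1) - θ * μ ≤ n / 2 := by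
    have h2 : ∑ e ∈ E, p * (Real.exp (θ * cc U W e) - 1) - θ * μ =
        ∑ e ∈ E, p * (Real.exp (θ * cc U W e) - 1 - θ * cc U W e) := by
      rw [hμ, mul_sum, mul_sum, ← sum_sub_distrib]
      apply sum_congr rfl
      intro e _
      ring
    have h3 : ∀ e ∈ E, p * (Real.exp (θ * cc U W e) - 1 - θ * cc U W e) ≤ p * (4 * θ ^ 2) := by
      intro e _
      apply mul_le_mul_of_nonneg_left _ h0.le
      have hc : (cc U W e : ℝ) ≤ 2 := by exact_mod_cast cc_le U W e
      have hc0 : (0 : ℝ) ≤ cc U W e := by positivity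
      have h5 : |θ * cc U W e| ≤ 1 := by
        rw [abs_mul, abs_of_nonneg hc0]
        nlinarith [abs_nonneg θ]
      have h6 := (abs_le.1 (Real.abs_exp_sub_one_sub_id_le h5)).2
      have h7 : (θ * cc U W e) ^ 2 ≤ 4 * θ ^ 2 := by
        rw [mul_pow]
        have : (cc U W e : ℝ) ^ 2 ≤ 4 := by nlinarith
        nlinarith [sq_nonneg θ]
      linarith
    rw [h2]
    refine (sum_le_sum h3).trans ?_
    rw [sum_const, nsmul_eq_mul]
    have h8 : (E.card : ℝ) * (p * (4 * θ ^ 2)) ≤ n * n / 2 * (p * (4 * θ ^ 2)) :=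
      mul_le_mul_of_nonneg_right hcardE (by positivity)
    have h9 : (n : ℝ) * n / 2 * (p * (4 * θ ^ 2)) = n / 2 * (4 * (θ ^ 2 * (n * p))) := by ring
    rw [h9, hθ2] at h8
    linarith
  rw [Pr_eq, sum_filter]
  have hstep : ∀ G ∈ (univ : Finset (SimpleGraph (Fin n))),
      (if 3 * (n : ℝ) < θ * (∑ e ∈ G.edgeFinset, (cc U W e : ℝ) - μ) then w n p G else 0) ≤
      Real.exp (-(θ * μ) - 3 * n) *
        (w n p G * Real.exp (θ * ∑ e ∈ G.edgeFinset, (cc U W e : ℝ))) := by
    intro G _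
    have hw := w_nonneg n h0.le h1 G
    split_ifs with h
    · have h2 : Real.exp (-(θ * μ) - 3 * n) *
        (w n p G * Real.exp (θ * ∑ e ∈ G.edgeFinset, (cc U W e : ℝ))) =
        w n p G * Real.exp (θ * (∑ e ∈ G.edgeFinset, (cc U W e : ℝ) - μ) - 3 * n) := by
        rw [mul_left_comm, ← Real.exp_add]
        congr 2
        ring
      rw [h2]
      have h3 : 1 ≤ Real.exp (θ * (∑ e ∈ G.edgeFinset, (cc U W e : ℝ) - μ) - 3 * n) :=
        Real.one_le_exp (by linarith)
      nlinarith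
    · positivity
  refine (sum_le_sum hstep).trans ?_
  rw [← mul_sum, hsum]
  calc Real.exp (-(θ * μ) - 3 * n) * ∏ e ∈ E, (p * Real.exp (θ * cc U W e) + (1 - p))
      ≤ Real.exp (-(θ * μ) - 3 * n) *
        Real.exp (∑ e ∈ E, p * (Real.exp (θ * cc U W e) - 1)) :=
        mul_le_mul_of_nonneg_left hprodle (Real.exp_pos _).le
    _ = Real.exp (-(θ * μ) - 3 * n + ∑ e ∈ E, p * (Real.exp (θ * cc U W e) - 1)) := by
        rw [Real.exp_add]
    _ ≤ Real.exp (-(5 / 2) * n) := by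
        apply Real.exp_le_exp.2
        linarith

open Classical in
theorem t (hprod : StProd) : StMix := by
  intro n p hn h0 h1 hnp
  set s := Real.sqrt (n * p) with hs
  have hnpos : (0 : ℝ) < n := by exact_mod_cast hn
  have hs1 : 1 ≤ s := by
    rw [hs, Real.one_le_sqrt]
    exact hnp
  have hs0 : 0 < s := by linarith
  let θ : Bool → ℝ := fun b => if b then 1 / (2 * s) else -(1 / (2 * s))
  have hθ : ∀ b, |θ b| * s = 1 / 2 := by
    intro b
    have hpos : 0 < 1 / (2 * s) := by positivity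
    cases b
    · simp only [θ, Bool.false_eq_true, if_false, abs_neg, abs_of_pos hpos]
      field_simp
    · simp only [θ, if_true, abs_of_pos hpos]
      field_simp
  have hsub : Pr n p (fun G => ¬ Mix G p) ≤
      Pr n p (fun G => ∃ i : Bool × Finset (Fin n) × Finset (Fin n),
        3 * (n : ℝ) < θ i.1 * (∑ e ∈ G.edgeFinset, (cc i.2.1 i.2.2 e : ℝ) -
          p * ∑ e ∈ univ.filter (fun e : Sym2 (Fin n) => ¬ e.IsDiag), (cc i.2.1 i.2.2 e : ℝ))) := by
    · apply pr_mono n h0.le h1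
      intro G h2
      unfold Mix at h2
      push Not at h2
      obtain ⟨U, W, h3⟩ := h2
      rw [sum_edges] at h3
      obtain ⟨r, hr0, hrn, hr⟩ := sum_all U W
      set X := ∑ e ∈ G.edgeFinset, (cc U W e : ℝ) with hX
      set Y := ∑ e ∈ univ.filter (fun e : Sym2 (Fin n) => ¬ e.IsDiag), (cc U W e : ℝ) with hY
      have hpr : p * r ≤ n * s := by
        have : p * r ≤ 1 * n := mul_le_mul h1 hrn hr0 zero_le_one
        nlinarith
      have hpr0 : 0 ≤ p * r := by positivity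
      have e1 : X - p * U.card * W.card = (X - p * Y) - p * r := by
        rw [mul_assoc, hr]
        ring
      rw [e1] at h3
      rcases le_or_gt 0 ((X - p * Y) - p * r) with h4 | h4
      · refine ⟨(true, U, W), ?_⟩
        rw [abs_of_nonneg h4] at h3
        have h5 : 6 * (n * s) < X - p * Y := by nlinarith
        simp only [θ, if_true]
        rw [← hX, ← hY, one_div, inv_mul_eq_div, lt_div_iff₀ (by positivity)]
        nlinarith
      · refine ⟨(false, U, W), ?_⟩
        rw [abs_of_neg h4] at h3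
        have h5 : 6 * (n * s) < -(X - p * Y) := by nlinarith
        simp only [θ, Bool.false_eq_true, if_false]
        rw [← hX, ← hY, neg_mul, ← mul_neg, one_div, inv_mul_eq_div,
          lt_div_iff₀ (by positivity)]
        nlinarith
  refine hsub.trans ((pr_union n h0.le h1 _).trans ?_)
  refine (sum_le_sum fun i _ => tail hprod hn h0 h1 hnp i.2.1 i.2.2 (θ i.1) (hθ i.1)).trans ?_
  rw [sum_const, nsmul_eq_mul, card_univ, Fintype.card_prod, Fintype.card_prod,
    Fintype.card_finset, Fintype.card_fin, Fintype.card_bool]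
  have h8 : (8 : ℝ) ≤ Real.exp (5 / 2) := by
    have h9 : Real.exp (5 / 2) = Real.exp 1 * Real.exp 1 * Real.exp (1 / 2) := by
      rw [← Real.exp_add, ← Real.exp_add]
      norm_num
    have h10 := Real.exp_one_gt_d9
    have h11 := Real.add_one_le_exp (1 / 2 : ℝ)
    rw [h9]
    have h12 : (2.7 : ℝ) * 2.7 ≤ Real.exp 1 * Real.exp 1 := by nlinarith
    nlinarith
  have h13 : Real.exp (-(5 / 2) * n) ≤ (1 / 8) ^ n := by
    have h14 : Real.exp (-(5 / 2) * n) = (Real.exp (-(5 / 2))) ^ n := by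
      rw [← Real.exp_nat_mul]
      congr 1
      ring
    rw [h14]
    apply pow_le_pow_left₀ (Real.exp_pos _).le
    rw [Real.exp_neg, one_div]
    exact inv_anti₀ (by norm_num) h8
  have h15 : ((2 * (2 ^ n * 2 ^ n) : ℕ) : ℝ) * (1 / 8) ^ n = 2 * (1 / 2) ^ n := by
    push_cast
    rw [mul_assoc, mul_assoc, ← mul_pow, ← mul_pow]
    norm_num
  calc ((2 * (2 ^ n * 2 ^ n) : ℕ) : ℝ) * Real.exp (-(5 / 2) * n)
      ≤ ((2 * (2 ^ n * 2 ^ n) : ℕ) : ℝ) * (1 / 8) ^ n :=
        mul_le_mul_of_nonneg_left h13 (by positivity)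
    _ = 2 * (1 / 2) ^ n := h15

end Pool.Agent.K7.H37.MDMIX
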