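import Pool.Agent.K7.H81.PD.Stm

set_option autoImplicit false

noncomputable section

namespace Pool.Agent.K7.H37.PDMAX

open Pool.Agent.K7.H81.PD MeasureTheory Filter Topology
open scoped ContDiff

theorem second {g g1 : ℝ → ℝ} {c : ℝ} (h1 : ∀ t, HasDerivAt g (g1 t) t) (h2 : HasDerivAt g1 c 0)
    (hm : IsLocalMin g 0) : 0 ≤ c := by
  by_contra hc
  push Not at hc
  have e1 : deriv g = g1 := funext fun t => (h1 t).deriv
  have e2 : deriv (deriv g) 0 = c := by rw [e1]; exact h2.deriv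
  have hmax : IsLocalMax g 0 := isLocalMax_of_deriv_deriv_neg (by rw [e2]; exact hc)
    hm.deriv_eq_zero (h1 0).continuousAt
  have heq : g =ᶠ[𝓝 0] fun _ => g 0 := by
    filter_upwards [hm, hmax] with t ht1 ht2
    exact le_antisymm ht2 ht1
  have h3 : deriv g =ᶠ[𝓝 0] deriv fun _ => g 0 := heq.deriv
  have h4 := h3.deriv_eq
  rw [e2] at h4
  have h5 : deriv (fun _ : ℝ => g 0) = fun _ => 0 := by
    funext t; simp
  rw [h5] at h4
  simp at h4
  linarith

variable {N : ℕ}

theorem line {f : E N → ℝ} (hf : ContDiff ℝ ∞ f) (x : E N) (i : Fin N) (t : ℝ) :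
    HasDerivAt (fun t : ℝ => f (x + t • EuclideanSpace.single i (1 : ℝ)))
      (pd i f (x + t • EuclideanSpace.single i (1 : ℝ))) t := by
  have h1 : HasFDerivAt f (fderiv ℝ f (x + t • EuclideanSpace.single i (1 : ℝ)))
      (x + t • EuclideanSpace.single i (1 : ℝ)) :=
    ((hf.differentiable (by simp)) _).hasFDerivAt
  have h2 : HasDerivAt (fun t : ℝ => x + t • EuclideanSpace.single i (1 : ℝ))
      (EuclideanSpace.single i (1 : ℝ)) t := by
    have := ((hasDerivAt_id t).smul_const (EuclideanSpace.single i (1 : ℝ))).const_add x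
    simpa using this
  exact h1.comp_hasDerivAt t h2

theorem pd_smooth {f : E N → ℝ} (hf : ContDiff ℝ ∞ f) (i : Fin N) : ContDiff ℝ ∞ (pd i f) := by
  have h1 : ContDiff ℝ ∞ (fderiv ℝ f) := hf.fderiv_right (by simp)
  exact h1.clm_apply contDiff_const

theorem test {f : E N → ℝ} (hf : ContDiff ℝ ∞ f) (x : E N) (i : Fin N) (ε : ℝ)
    (hm : ∀ᶠ y in 𝓝 x, f x - ε * ‖x‖ ^ 2 ≤ f y - ε * ‖y‖ ^ 2) : 2 * ε ≤ pd i (pd i f) x := by
  have hn : ∀ t : ℝ, ‖x + t • EuclideanSpace.single i (1 : ℝ)‖ ^ 2 = ‖x‖ ^ 2 + 2 * t * x i + t ^ 2 := by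
    intro t
    rw [@norm_add_sq_real, inner_smul_right, norm_smul]
    simp only [EuclideanSpace.inner_single_right, map_one, mul_one, one_mul,
      EuclideanSpace.norm_single, norm_one, Real.norm_eq_abs, sq_abs]
    simp
    ring
  have h1 : ∀ t, HasDerivAt (fun t : ℝ => f (x + t • EuclideanSpace.single i (1 : ℝ)) -
      ε * (‖x‖ ^ 2 + 2 * t * x i + t ^ 2))
      (pd i f (x + t • EuclideanSpace.single i (1 : ℝ)) - ε * (2 * x i + 2 * t)) t := by
    intro t
    have h2 : HasDerivAt (fun t : ℝ => ε * (‖x‖ ^ 2 + 2 * t * x i + t ^ 2))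
        (ε * (2 * x i + 2 * t)) t := by
      have h3 : HasDerivAt (fun t : ℝ => ‖x‖ ^ 2 + 2 * t * x i + t ^ 2) (2 * x i + 2 * t) t := by
        have h4 := ((((hasDerivAt_id t).const_mul 2).mul_const (x i)).const_add (‖x‖ ^ 2)).add
          ((hasDerivAt_id t).pow 2)
        refine h4.congr_deriv ?_
        simp
      exact h3.const_mul ε
    exact (line hf x i t).sub h2
  have h2 : HasDerivAt (fun t : ℝ => pd i f (x + t • EuclideanSpace.single i (1 : ℝ)) -
      ε * (2 * x i + 2 * t)) (pd i (pd i f) x - ε * 2) 0 := by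
    have h3 := line (pd_smooth hf i) x i 0
    rw [zero_smul, add_zero] at h3
    have h4 : HasDerivAt (fun t : ℝ => ε * (2 * x i + 2 * t)) (ε * 2) 0 := by
      have h5 := (((hasDerivAt_id (0 : ℝ)).const_mul 2).const_add (2 * x i)).const_mul ε
      refine h5.congr_deriv ?_
      simp
    exact h3.sub h4
  have h3 : IsLocalMin (fun t : ℝ => f (x + t • EuclideanSpace.single i (1 : ℝ)) -
      ε * (‖x‖ ^ 2 + 2 * t * x i + t ^ 2)) 0 := by
    have hc : Tendsto (fun t : ℝ => x + t • EuclideanSpace.single i (1 : ℝ)) (𝓝 0) (𝓝 x) := by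
      have : Continuous (fun t : ℝ => x + t • EuclideanSpace.single i (1 : ℝ)) := by fun_prop
      have h5 := this.tendsto 0
      rwa [zero_smul, add_zero] at h5
    have h6 := hc.eventually hm
    filter_upwards [h6] with t ht
    rw [hn] at ht
    simp only [zero_smul, add_zero]
    have e : ‖x‖ ^ 2 + 2 * 0 * x i + 0 ^ 2 = ‖x‖ ^ 2 := by ring
    rw [e]
    exact ht
  have := second h1 h2 h3
  linarith

theorem t : StMax := by
  intro N Ω ζ hN hΩ hb hζ hl
  obtain ⟨hs, hf⟩ := hζ
  have hcl : IsCompact (closure Ω) := hb.isCompact_closure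
  obtain ⟨r, hr⟩ := hcl.isBounded.subset_closedBall (0 : E N)
  have hpos : ∀ x ∈ Ω, 0 ≤ ζ x := by
    intro x hx
    have hkey : ∀ ε : ℝ, 0 < ε → -(ε * r ^ 2) ≤ ζ x := by
      intro ε hε
      have hcont : ContinuousOn (fun y => ζ y - ε * ‖y‖ ^ 2) (closure Ω) :=
        ((hs.continuous).sub (continuous_const.mul (continuous_norm.pow 2))).continuousOn
      obtain ⟨x0, hx0, hmin⟩ := hcl.exists_isMinOn ⟨x, subset_closure hx⟩ hcont
      have hle : ζ x0 - ε * ‖x0‖ ^ 2 ≤ ζ x - ε * ‖x‖ ^ 2 := hmin (subset_closure hx)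
      by_cases hin : x0 ∈ Ω
      · exfalso
        have h1 : ∀ i : Fin N, 2 * ε ≤ pd i (pd i ζ) x0 := by
          intro i
          apply test hs x0 i ε
          filter_upwards [hΩ.mem_nhds hin] with y hy
          exact hmin (subset_closure hy)
        have h2 : ∑ i : Fin N, 2 * ε ≤ lap ζ x0 := Finset.sum_le_sum fun i _ => h1 i
        rw [Finset.sum_const, Finset.card_univ, Fintype.card_fin, nsmul_eq_mul] at h2
        have h3 := hl x0 hin
        have h4 : (1 : ℝ) ≤ N := by exact_mod_cast hN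
        nlinarith
      · have hfr : x0 ∈ frontier Ω := by
          rw [hΩ.frontier_eq]
          exact ⟨hx0, hin⟩
        rw [hf x0 hfr] at hle
        have h1 : ‖x0‖ ≤ r := by
          have := hr hx0
          rwa [mem_closedBall_zero_iff] at this
        have h2 : ‖x0‖ ^ 2 ≤ r ^ 2 := pow_le_pow_left₀ (norm_nonneg _) h1 2
        have h3 : 0 ≤ ε * ‖x‖ ^ 2 := by positivity
        nlinarith
    by_contra hneg
    push Not at hneg
    have h1 : 0 < r ^ 2 + 1 := by positivity
    have h2 := hkey (-(ζ x) / (2 * (r ^ 2 + 1))) (by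
      apply div_pos (by linarith) (by positivity))
    have h3 : -(ζ x) / (2 * (r ^ 2 + 1)) * r ^ 2 ≤ -(ζ x) / 2 := by
      rw [div_mul_eq_mul_div, div_le_div_iff₀ (by positivity) (by norm_num)]
      nlinarith [sq_nonneg r]
    linarith
  refine ⟨hpos, fun x hx hlx => ?_⟩
  rcases (hpos x hx).lt_or_eq with h | h
  · exact h
  · exfalso
    have h1 : ∀ i : Fin N, 2 * (0 : ℝ) ≤ pd i (pd i ζ) x := by
      intro i
      apply test hs x i 0
      filter_upwards [hΩ.mem_nhds hx] with y hy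
      rw [← h]
      simpa using hpos y hy
    have h2 : (0 : ℝ) ≤ lap ζ x := by
      apply Finset.sum_nonneg
      intro i _
      have := h1 i
      linarith
    linarith

end Pool.Agent.K7.H37.PDMAX
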