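import Pool.Agent.W594.Herm3

set_option autoImplicit false
set_option linter.unusedSimpArgs false

/-!
# A definite form of rank two which becomes extended after adding one copy of `H₂`

With `t s = 1` put `L = (25, 7 + 10 (t - s); 7 - 10 (t - s), 10 - 4 (t² + s²))`,
`Q = (25, 7; 7, 2)` and `H₂ = (0, t - 1; s - 1, 0)`. Then `L ⊕ H₂` and `Q ⊕ H₂` are isometric, by an
explicit matrix.
-/

namespace Pool.Agent.K7.H37.StableIso

open Matrix

variable {R : Type*} [CommRing R]

/-- the rank two form -/
def Lt (t s : R) : Matrix (Fin 2) (Fin 2) R :=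
  !![25, 7 + 10 * (t - s); 7 - 10 * (t - s), 10 - 4 * (t ^ 2 + s ^ 2)]

/-- the form `H₂` -/
def Ht (t s : R) : Matrix (Fin 2) (Fin 2) R := !![0, t - 1; s - 1, 0]

/-- the integral form -/
def Qt (R : Type*) [CommRing R] : Matrix (Fin 2) (Fin 2) R := !![25, 7; 7, 2]

/-- the isometry, as a block matrix -/
def Pt (t s : R) : Matrix (Fin 2 ⊕ Fin 2) (Fin 2 ⊕ Fin 2) R :=
  Matrix.fromBlocks !![-5 * s - 24 + 30 * t, -s - 7 + 8 * t; 0, 1]
    !![s ^ 2 + 4 * s - 5, 6 * t - 6; 0, 0]
    !![-25 - 125 * t, -7 - 35 * t; -150 * t, -42 * t]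
    !![5 * s + 21, -25 * t; 25, 6 - 30 * t]

/-- its inverse -/
def Pt' (t s : R) : Matrix (Fin 2 ⊕ Fin 2) (Fin 2 ⊕ Fin 2) R :=
  Matrix.fromBlocks
    !![30 * s - 24 - 5 * t, -12 * s ^ 2 + 18 * s + 7 - 11 * t - 2 * t ^ 2; 0, 1]
    !![-6 * s ^ 2 + 6 * s, 5 * s - 4 - t; 0, 0]
    !![150, -60 * s + 42 + 60 * t; 125 + 25 * t, -50 * s + 25 + 57 * t + 10 * t ^ 2]
    !![-30 * s + 6, 25; -25 * s, 21 + 5 * t]

theorem Pt_mul (t s : R) (h : t * s = 1) : Pt t s * Pt' t s = 1 := by
  unfold Pt Pt'
  rw [Matrix.fromBlocks_multiply, ← Matrix.fromBlocks_one]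
  congr 1
  · apply Matrix.ext
    intro i j
    fin_cases i <;> fin_cases j <;>
      simp [Matrix.mul_apply, Fin.sum_univ_two]
    · linear_combination (925 : R) * h
    · linear_combination (535 - 300 * s + 10 * t : R) * h
  · apply Matrix.ext
    intro i j
    fin_cases i <;> fin_cases j <;>
      simp [Matrix.mul_apply, Fin.sum_univ_two]
    · linear_combination (30 - 180 * s : R) * h
    · linear_combination (155 : R) * h
  · apply Matrix.ext
    intro i j
    fin_cases i <;> fin_cases j <;>
      simp [Matrix.mul_apply, Fin.sum_univ_two]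
    · linear_combination (-3750 : R) * h
    · linear_combination (-700 + 1500 * s : R) * h
    · linear_combination (-4500 : R) * h
    · linear_combination (-1200 + 1800 * s : R) * h
  · apply Matrix.ext
    intro i j
    fin_cases i <;> fin_cases j <;>
      simp [Matrix.mul_apply, Fin.sum_univ_two]
    · linear_combination (-125 + 750 * s : R) * h
    · linear_combination (-625 : R) * h
    · linear_combination (-150 + 900 * s : R) * h
    · linear_combination (-750 : R) * h

theorem Pt_iso (t s : R) (h : t * s = 1) :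
    (Pt s t)ᵀ * Matrix.fromBlocks (Lt t s) 0 0 (Ht t s) * Pt t s
      = Matrix.fromBlocks (Qt R) 0 0 (Ht t s) := by
  unfold Pt Lt Ht Qt
  rw [Matrix.fromBlocks_transpose, Matrix.fromBlocks_multiply, Matrix.fromBlocks_multiply]
  congr 1
  · apply Matrix.ext
    intro i j
    fin_cases i <;> fin_cases j <;>
      simp [Matrix.mul_apply, Fin.sum_univ_two]
    · linear_combination (-14375 + 18750 * s + 18750 * t : R) * h
    · linear_combination (-4025 + 5250 * s + 5250 * t : R) * h
    · linear_combination (-4025 + 5250 * s + 5250 * t : R) * h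
    · linear_combination (-1135 + 1470 * s + 1470 * t : R) * h
  · apply Matrix.ext
    intro i j
    fin_cases i <;> fin_cases j <;>
      simp [Matrix.mul_apply, Fin.sum_univ_two]
    · linear_combination (-3625 - 125 * s : R) * h
    · linear_combination (-3750 + 3750 * s + 3750 * t : R) * h
    · linear_combination (-1015 - 35 * s : R) * h
    · linear_combination (-1050 + 1050 * s + 1050 * t : R) * h
  · apply Matrix.ext
    intro i j
    fin_cases i <;> fin_cases j <;>
      simp [Matrix.mul_apply, Fin.sum_univ_two]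
    · linear_combination (-3625 - 125 * t : R) * h
    · linear_combination (-1015 - 35 * t : R) * h
    · linear_combination (-3750 + 3750 * s + 3750 * t : R) * h
    · linear_combination (-1050 + 1050 * s + 1050 * t : R) * h
  · apply Matrix.ext
    intro i j
    fin_cases i <;> fin_cases j <;>
      simp [Matrix.mul_apply, Fin.sum_univ_two]
    · linear_combination (425 + 100 * s + 100 * t + 25 * t * s : R) * h
    · linear_combination (-625 : R) * h
    · linear_combination (-625 : R) * h
    · linear_combination (-900 + 750 * s + 750 * t : R) * h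

end Pool.Agent.K7.H37.StableIso
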